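import Pool.Agent.H81.LE.StmThree
import Pool.Agent.H83.LE.Main

/-!
# Project TC (MP_db9399_co, MP_b8729f_co): total colourings from lists, graphs with
`D ≥ C · degeneracy`, `D ≥ C · log n`

Two phases.  (1) The vertices are coloured in the degeneracy order, each one from its list without the
colours of its parents; method of conditional expectations, the potential of the edge phase is kept small.
(2) The stars are coloured as in project LE, with the sets `B v` = colours blocked by the colour of `v` and by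
precoloured edges at `v`.

All modules: `theorem t_xxx (h : S_yyy) ... : S_xxx` with the statements `S_xxx` below, file
`Pool/Agent/<Hxx>/TC/Xxx.lean`, `import Pool.Agent.H81.TC.Stm`.
-/

namespace Pool.Agent.H81.TC

open Finset Pool.Agent.H81.LE

/-- The colours at distance less than `p` from `c`. -/
def ball (p c : ℕ) : Finset ℕ := (range (c + p)).filter (fun x => c < x + p)

theorem mem_ball {p c x : ℕ} : x ∈ ball p c ↔ x < c + p ∧ c < x + p := by
  simp [ball]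

theorem card_ball (p c : ℕ) : (ball p c).card ≤ 2 * p - 1 := by
  have h : ball p c ⊆ Ico (c + 1 - p) (c + p) := by
    intro x hx
    rw [mem_ball] at hx
    rw [mem_Ico]
    omega
  refine (card_le_card h).trans ?_
  rw [Nat.card_Ico]
  omega

/-- **Greedy choice with a potential.**  Induction on `t`: there is `c` with `c v ∈ A c v` for `r v < t` and
`∑ i ∈ I, a i * ∏ v, (if r v < t then w i v (c v) else β i v) ≤ ∑ i ∈ I, a i * ∏ v, β i v`. Step for the vertex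
`u` with `r u = t`: average over `x ∈ A c u` of the potential of `Function.update c u x`
(`Finset.exists_le_of_sum_le` / `Finset.exists_le_card_...`); `A` does not change at the vertices of rank `≤ t`.
(If no vertex has rank `t`, nothing changes.) -/
def S_vert : Prop := ∀ (V ι : Type) [Fintype V] [DecidableEq V] (r : V → ℕ)
  (A : (V → ℕ) → V → Finset ℕ) (I : Finset ι) (a : ι → ℝ) (w : ι → V → ℕ → ℝ) (β : ι → V → ℝ),
  Function.Injective r → (∀ c c' v, (∀ u, r u < r v → c u = c' u) → A c v = A c' v) →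
  (∀ c v, (A c v).Nonempty) → (∀ i ∈ I, 0 ≤ a i) → (∀ i ∈ I, ∀ v x, 0 ≤ w i v x) →
  (∀ i ∈ I, ∀ v, 0 ≤ β i v) →
  (∀ c v, ∀ i ∈ I, ∑ x ∈ A c v, w i v x ≤ (A c v).card * β i v) →
  ∃ c : V → ℕ, (∀ v, c v ∈ A c v) ∧
    ∑ i ∈ I, a i * ∏ v, w i v (c v) ≤ ∑ i ∈ I, a i * ∏ v, β i v

/-- **Averaging.**  For a colour `c` with `Q ∩ ball p c = ∅` the product is `1`; otherwise it is at most
`y ^ (2p)` (`card_ball`).  There are at most `2 p |Q|` colours of the second kind (`x ∈ ball p c ↔ c ∈ ball p x`).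
So the sum is at most `|A| + 2 p |Q| y ^ (2p) ≤ |A| (1 + |Q|/4) ≤ |A| exp (|Q|/4)`. -/
def S_avg : Prop := ∀ (p : ℕ) (y : ℝ) (A Q : Finset ℕ), 1 ≤ y → 8 * p * y ^ (2 * p) ≤ A.card →
  ∑ c ∈ A, ∏ x ∈ Q, (if x ∈ ball p c then y else 1) ≤ A.card * Real.exp (Q.card / 4)

/-- **The vertex colours and the initial potential.**  `S_vert` with `I` = pairs `(u, F)`, `u` big,
`F ∈ family (kids u) (L u) D` (`Finset.sigma`), `a = exp (-2|F|) exp (|F|/2)`,
`w (u,F) v c = ∏ x ∈ F.filter (x.1 = v), (if x.2 ∈ B₀ v ∪ ball p c then exp 2000 else 1)`,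
`β (u,F) v = exp (|F.filter (x.1 = v)| / 4) * (if v ∈ P ∧ v ∈ kids u then exp (2000 (t + 2p)) else 1)`.
For `v ∉ P` (`B₀ v = ∅`): `S_avg` with `Q` = image of `F.filter (x.1 = v)` under `Prod.snd`.  For `v ∈ P`:
`A c v` is a singleton, at most `|B₀ v ∪ ball| ≤ t + 2p` factors are not `1` (and `F` has rows in `kids u`
only, see `Fam`, `Col`).  `∏ v, w = ∏ x ∈ F, …` (`Finset.prod_fiberwise`), `∏ v, β ≤ exp (|F|/4) exp (2000 (t+2p) t)`
and `D ≤ 200 |F|` for all `F ∈ family`, so `2000 (t+2p) t ≤ |F|/4` and the sum is at most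
`∑ u ∑ F exp (-|F|) ≤ #big · exp (-D/400) < 1` (`S_count`). -/
def S_init : Prop := ∀ (V : Type) [Fintype V] [DecidableEq V] (G : SimpleGraph V)
  [DecidableRel G.Adj] (r : V → ℕ) (L : V → V → Finset ℕ) (D N t p : ℕ) (P : Finset V)
  (B₀ : V → Finset ℕ) (A : (V → ℕ) → V → Finset ℕ), Function.Injective r →
  (∀ c c' v, (∀ u, r u < r v → c u = c' u) → A c v = A c' v) →
  (∀ v ∈ P, ∀ c, (A c v).card = 1) →
  (∀ v, v ∉ P → ∀ c, 1 ≤ (A c v).card ∧ 8 * p * Real.exp 2000 ^ (2 * p) ≤ (A c v).card) →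
  (∀ v, v ∉ P → B₀ v = ∅) → (∀ v ∈ P, (B₀ v).card ≤ t) →
  (∀ u, ((kids G r u).filter (fun v => v ∈ P)).card ≤ t) →
  100000000 ≤ D → 1600000 * ((t + 2 * p) * t) ≤ D →
  (∀ u, ∀ v ∈ kids G r u, (L u v).card = D) → (∀ u, (kids G r u).card ≤ D) →
  ((univ.filter (fun u => D ≤ (kids G r u).card + 3 * N)).card : ℝ) *
    Real.exp (-(D : ℝ) / 400) < 1 →
  ∃ c : V → ℕ, (∀ v, c v ∈ A c v) ∧
    ∑ u ∈ univ.filter (fun u => D ≤ (kids G r u).card + 3 * N),
      ∑ F ∈ family (kids G r u) (L u) D, Real.exp (-(2 * (F.card : ℝ))) *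
        ∏ x ∈ F, ((if x.2 ∈ B₀ x.1 ∪ ball p (c x.1) then Real.exp 2000 else 1) *
          Real.exp (1 / 2)) < 1

/-- **The edge phase** (as `S_main`, `S_mainL`, with the blocked sets `B v`). Adapt
`Pool.Agent.H81.LE.t_mainL`: everywhere `B v ∪ TT G r g t v` instead of `TT G r g t v`
(`fac'`: `if x.2 ∈ B x.1 ∪ TT G r g t x.1 then y else 1`; if `x.2 ∈ B x.1` the step is easy, otherwise use
`fac_step`); the hypothesis on the sum replaces the computation for `t = 0` (now `b d ≤ 1/2`). -/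
def S_mainB : Prop := ∀ (V : Type) [Fintype V] [DecidableEq V] (G : SimpleGraph V)
  [DecidableRel G.Adj] (r : V → ℕ) (L : V → V → Finset ℕ) (B : V → Finset ℕ) (D N d : ℕ),
  Function.Injective r → 1 ≤ N → 100000000 * N ≤ D → (∀ u, d + (B u).card ≤ N) →
  6 * Real.exp 2000 * d ≤ N → (∀ u, ∀ v ∈ kids G r u, (L u v).card = D) →
  (∀ u, (kids G r u).card + (pars G r u).card + (B u).card ≤ D) →
  (∀ u, (pars G r u).card ≤ d) →
  ∑ u ∈ univ.filter (fun u => D ≤ (kids G r u).card + 3 * N),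
    ∑ F ∈ family (kids G r u) (L u) D, Real.exp (-(2 * (F.card : ℝ))) *
      ∏ x ∈ F, ((if x.2 ∈ B x.1 then Real.exp 2000 else 1) * Real.exp (1 / 2)) < 1 →
  ∃ g : V → V → ℕ, (∀ u, ∀ v ∈ kids G r u, g u v ∈ L u v ∧ g u v ∉ B u ∧ g u v ∉ B v) ∧
    (∀ u, ∀ v ∈ kids G r u, ∀ w ∈ kids G r u, g u v = g u w → v = w) ∧
    (∀ v, ∀ u ∈ pars G r v, ∀ w ∈ pars G r v, g u v = g w v → u = w) ∧
    (∀ u, ∀ w ∈ pars G r u, ∀ v ∈ kids G r u, g w u ≠ g u v)

/-- `c`, `f` is a proper `(p,1)`-total labelling of `G` (`p = 1`: a total colouring). -/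
def Proper {V : Type} (G : SimpleGraph V) (p : ℕ) (c : V → ℕ) (f : Sym2 V → ℕ) : Prop :=
  (∀ u v, G.Adj u v → c u ≠ c v) ∧ (∀ u v, G.Adj u v → f s(u, v) ∉ ball p (c u)) ∧
    ∀ u v w, G.Adj u v → G.Adj u w → v ≠ w → f s(u, v) ≠ f s(u, w)

/-- **The general theorem**: extension of a precolouring of `G[P]`, where every vertex has at most `t`
neighbours in `P`. -/
def S_total : Prop := ∀ p : ℕ, 1 ≤ p → ∃ C : ℝ, 1 ≤ C ∧ ∀ (V : Type) [Fintype V]
  (G : SimpleGraph V) (D d t : ℕ) (P : Set V) (M : V → Finset ℕ) (L : Sym2 V → Finset ℕ)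
  (c₀ : V → ℕ) (f₀ : Sym2 V → ℕ),
  (∀ v, (G.neighborSet v).ncard ≤ D) →
  (∀ X : Finset V, X.Nonempty → ∃ v ∈ X, {w | w ∈ X ∧ G.Adj v w}.ncard ≤ d) →
  C * d ≤ D → C * t ^ 2 ≤ D → C * Real.log (Fintype.card V) ≤ D →
  (∀ v, {w | w ∈ P ∧ G.Adj v w}.ncard ≤ t) →
  (∀ v, v ∉ P → D + 2 * p - 1 ≤ (M v).card) →
  (∀ u v, G.Adj u v → u ∉ P → D + 2 * p - 1 ≤ (L s(u, v)).card) →
  (∀ u v, u ∈ P → v ∈ P → G.Adj u v → c₀ u ≠ c₀ v ∧ f₀ s(u, v) ∉ ball p (c₀ u)) →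
  (∀ u v w, u ∈ P → v ∈ P → w ∈ P → G.Adj u v → G.Adj u w → v ≠ w → f₀ s(u, v) ≠ f₀ s(u, w)) →
  ∃ (c : V → ℕ) (f : Sym2 V → ℕ), Proper G p c f ∧ (∀ v ∈ P, c v = c₀ v) ∧
    (∀ v, v ∉ P → c v ∈ M v) ∧
    (∀ u v, u ∈ P → v ∈ P → G.Adj u v → f s(u, v) = f₀ s(u, v)) ∧
    (∀ u v, G.Adj u v → u ∉ P → f s(u, v) ∈ L s(u, v))

end Pool.Agent.H81.TC
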